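import Pool.Agent.N436.DF.Stm3
import Pool.Agent.N264.DF.Graph
import Pool.Agent.N495.DF.KillCol
import Pool.Agent.N897.DF.KillRho

/-!
# Project DF (helper436), third batch: translation to critical graphs for `(1, 3)` (helper526, after
`Pool.Agent.N264.DF.Graph` by helper264)
-/

set_option autoImplicit false

namespace Pool.Agent.N526.DF

open Finset Pool.Agent.N436.DF
open Pool.Agent.N264.DF (hub load_eq load_ge colourable colBy_induce)

section

variable {V : Type} (G : SimpleGraph V)

open Classical in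
lemma hub_ok3 : Ok P13 (hub 1 3 G) where
  c_ge i v := by
    change (-1 : ℤ) ≤ if i then ((1 : ℕ) : ℤ) else ((3 : ℕ) : ℤ)
    split_ifs <;> norm_num
  c1_le v := le_refl (1 : ℤ)
  c2_le v := le_refl (3 : ℤ)
  r01 u v := by
    change (if G.Adj u v then (1 : ℤ) else 0) = 0 ∨ (if G.Adj u v then (1 : ℤ) else 0) = 1
    split_ifs <;> simp
  rsymm u v := by
    change (if G.Adj u v then (1 : ℤ) else 0) = if G.Adj v u then (1 : ℤ) else 0
    simp only [G.adj_comm u v]
  r0 v := by
    change (if G.Adj v v then (1 : ℤ) else 0) = 0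
    simp
  m_nn u v := le_refl 0
  msymm u v := rfl
  m0 v := rfl

lemma rho_univ3 [Fintype V] [DecidableEq V] :
    rho P13 (hub 1 3 G) (univ : Finset V) =
      38 * (Fintype.card V : ℤ) - 24 * (G.edgeSet.ncard : ℤ) := by
  classical
  have e1 : ∀ v, wt P13 (hub 1 3 G) v = 19 := by
    intro v
    change (5 : ℤ) * (((1 : ℕ) : ℤ) + 1) + (3 : ℤ) * ((3 : ℕ) : ℤ) = _
    norm_num
  have e2 : ∀ u v, ew P13 (hub 1 3 G) u v = 12 * (if G.Adj u v then 1 else 0) := by
    intro u v
    change (12 : ℤ) * (if G.Adj u v then 1 else 0) + (5 : ℤ) * 0 = _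
    ring
  have e3 : ∑ u : V, ∑ v : V, (if G.Adj u v then (1 : ℤ) else 0) = 2 * (G.edgeSet.ncard : ℤ) := by
    have h3 : ∀ u : V, ∑ v : V, (if G.Adj u v then (1 : ℤ) else 0) = G.degree u := by
      intro u
      rw [← Finset.natCast_card_filter, ← SimpleGraph.card_neighborFinset_eq_degree]
      congr 2
      ext v
      simp
    simp only [h3]
    rw [← Nat.cast_sum, G.sum_degrees_eq_twice_card_edges, ← SimpleGraph.coe_edgeFinset,
      Set.ncard_coe_finset]
    push_cast
    rfl
  rw [rho]
  simp only [e1, e2, ← Finset.mul_sum, e3, Finset.sum_const, card_univ, nsmul_eq_mul]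
  ring

end

theorem graph3' (hkc : S_killCol) (hkr : S_killRho) : S3_graph := by
  intro hmain V _ G hcrit
  classical
  by_contra hcon
  push Not at hcon
  set H := hub 1 3 G with hH
  have hok : Ok P13 H := hub_ok3 G
  have hnotcol : ¬ Col H univ := fun h => hcrit.not_col (colourable G h)
  -- the potential of the whole graph
  have hrho : -(2 * P13.b) < rho P13 H univ := by
    rw [hH, rho_univ3 G]
    change -(2 * (3 : ℤ)) < _
    have h5 : (-(2 * (3 : ℚ))) < 38 * (Fintype.card V : ℚ) - 24 * (G.edgeSet.ncard : ℚ) := by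
      linarith
    exact_mod_cast h5
  -- `V` is nonempty
  have hV : Nonempty V := by
    by_contra hV
    rw [not_nonempty_iff] at hV
    exact hcrit.not_col ⟨∅, fun v => (hV.false v).elim, fun v => (hV.false v).elim⟩
  obtain ⟨v₀⟩ := hV
  obtain ⟨X, hX, hmin⟩ := Finset.exists_min_image
    ((univ : Finset (Finset V)).filter fun X => X.Nonempty) (rho P13 H)
    ⟨univ, by simp only [mem_filter, mem_univ, true_and]; exact ⟨v₀, mem_univ _⟩⟩
  rw [mem_filter] at hX
  have hmin' : ∀ Y : Finset V, Y.Nonempty → rho P13 H X ≤ rho P13 H Y := fun Y hY =>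
    hmin Y (by simp only [mem_filter, mem_univ, true_and]; exact hY)
  by_cases hXb : -(2 * P13.b) < rho P13 H X
  · exact hnotcol (hmain V H univ hok fun Y _ hY => hXb.trans_le (hmin' Y hY))
  · push Not at hXb
    have hXu : X ≠ univ := by
      rintro rfl
      exact absurd hrho (not_lt.2 hXb)
    have hXv : ∃ v, v ∉ X := by
      by_contra hall
      push Not at hall
      exact hXu (Finset.eq_univ_iff_forall.2 hall)
    obtain ⟨f, hf⟩ := colBy_induce G hcrit X hXv
    obtain ⟨hk1, hk2, hk3, -⟩ := hkr V P13 H X f hok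
    have hyp : Hyp P13 (kill H X f) (univ \ X) := by
      intro Y hY hYn
      have hdis : Disjoint Y X := by
        rw [Finset.disjoint_left]
        intro v hv
        exact (mem_sdiff.1 (hY hv)).2
      rw [hk2 Y hdis]
      have h6 := hmin' (Y ∪ X) (hYn.mono subset_union_left)
      have h7 : 0 ≤ ∑ v ∈ Y, sav P13 H X f v := Finset.sum_nonneg fun v _ => (hk3 v).2.2.2.2.2
      have h8 : (0 : ℤ) < P13.b := by change (0 : ℤ) < 3; norm_num
      linarith
    obtain ⟨f', p', hf', -⟩ := hkc V P13 H univ X f _ hok (subset_univ X) hf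
      (hmain V _ _ hk1 hyp)
    exact hnotcol ⟨f', p', hf'⟩

theorem graph3 : S3_graph :=
  graph3' Pool.Agent.N495.DF.killCol Pool.Agent.N897.DF.KillRho.killRho

end Pool.Agent.N526.DF
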